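import Pool.Agent.H6.LS.Col

/-!
# Infinite `(t+1)`-transitive groups that are not `t`-set primitive, on sets of every cardinality

The library theorem `AllSteinerTypes` gives, on a countable set, `(t+1)`-transitive groups with blocks
of imprimitivity on `t`-sets of every type `S(s, t, ·)`, `1 ≤ s < t`.  Here the same is proved on every
infinite set, and the assertion of Q1 is decided for every infinite set `X` and every `t`: it holds if
and only if `t ≤ 2`.
-/

set_option autoImplicit false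

open Finset
open scoped Pointwise

namespace Pool.Agent.Results.MP_c0ccbe_al.AllCardinals

open Pool.Agent.H6.LS

variable {X : Type} [DecidableEq X] {Y : Type}

/-- `S` is a block of imprimitivity of `G` on the `t`-subsets of `X` -/
def IsImprimitivityBlock {t : ℕ} (G : Subgroup (Equiv.Perm X))
    (S : Set (Set.powersetCard X t)) : Prop :=
  S.Nontrivial ∧ S ≠ Set.univ ∧ ∀ g : G, g • S = S ∨ Disjoint (g • S) S

omit [DecidableEq X] in
/-- `S` is a partition of `X` -/
def IsPartition {t : ℕ} (S : Set (Set.powersetCard X t)) : Prop :=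
  ∀ x : X, ∃! A : Set.powersetCard X t, A ∈ S ∧ x ∈ (A : Finset X)

/-- `S` is the block set of a Steiner system `S(s, t, ·)` on `X`: every `s`-subset of `X` lies in
exactly one member of `S` -/
def IsSteiner {t : ℕ} (s : ℕ) (S : Set (Set.powersetCard X t)) : Prop :=
  ∀ W : Finset X, W.card = s → ∃! A : Set.powersetCard X t, A ∈ S ∧ W ⊆ (A : Finset X)

/-- an ordered basis: `s + 1` distinct points in no common block -/
def IsBasis {t : ℕ} (s : ℕ) (S : Set (Set.powersetCard X t)) (b : Fin (s + 1) ↪ X) : Prop :=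
  ∀ A ∈ S, ∃ i, b i ∉ (A : Finset X)

/-- the elements of `G` which map `S` to itself act transitively on the ordered bases -/
def IsBasisTransitive {t : ℕ} (s : ℕ) (G : Subgroup (Equiv.Perm X))
    (S : Set (Set.powersetCard X t)) : Prop :=
  ∀ b b' : Fin (s + 1) ↪ X, IsBasis s S b → IsBasis s S b' →
    ∃ g : G, g • S = S ∧ ∀ i, (g : Equiv.Perm X) (b i) = b' i

/-- the assertion of Q1 for the set `X` and the number `t`: if `G` is a `(t+1)`-transitive group of
permutations of `X` that is not `t`-set primitive, then every block of imprimitivity of `G` on the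
`t`-subsets is a partition of `X` -/
def Assertion (X : Type) [DecidableEq X] (t : ℕ) : Prop :=
  ∀ G : Subgroup (Equiv.Perm X), MulAction.IsMultiplyPretransitive G X (t + 1) →
    ¬ MulAction.IsPreprimitive G (Set.powersetCard X t) →
    ∀ S : Set (Set.powersetCard X t), IsImprimitivityBlock G S → IsPartition S

omit [DecidableEq X] in
theorem exists_superset [Infinite X] (n : ℕ) (Y : Finset X) (hY : Y.card ≤ n) :
    ∃ W : Finset X, Y ⊆ W ∧ W.card = n :=
  Infinite.exists_superset_card_eq Y n hY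

/-- the group of all permutations preserving the relation `having the same colour` -/
def autG {t : ℕ} (c : Set.powersetCard X t → Y) : Subgroup (Equiv.Perm X) where
  carrier := {σ | ∀ A B : Set.powersetCard X t, c (σ • A) = c (σ • B) ↔ c A = c B}
  one_mem' := by
    intro A B
    rw [one_smul, one_smul]
  mul_mem' := by
    intro σ τ hσ hτ A B
    rw [mul_smul, mul_smul, hσ, hτ]
  inv_mem' := by
    intro σ hσ A B
    have h := hσ (σ⁻¹ • A) (σ⁻¹ • B)
    rw [smul_inv_smul, smul_inv_smul] at h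
    exact h.symm

theorem smul_eq {t : ℕ} {z : Y} {c : Set.powersetCard X t → Y} (g : autG c) {A : Set.powersetCard X t}
    (h3 : c A = z) (h2 : c (g • A) = z) :
    g • {A : Set.powersetCard X t | c A = z} = {A | c A = z} := by
  have hg := g.2
  ext C
  have hC : g • (g⁻¹ • C) = C := smul_inv_smul g C
  rw [← hC, Set.smul_mem_smul_set_iff]
  have h1 := hg (g⁻¹ • C) A
  constructor
  · intro h4
    have h5 : c (g⁻¹ • C) = z := h4
    show c (g • (g⁻¹ • C)) = z
    rw [← h2]
    exact h1.2 (by rw [h5, h3])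
  · intro h4
    have h5 : c (g • (g⁻¹ • C)) = z := h4
    show c (g⁻¹ • C) = z
    rw [← h3]
    apply h1.1
    exact h5.trans h2.symm

theorem enum {s t : ℕ} {A : Finset X} (hA : A.card = t) (b : Fin (s + 1) ↪ X)
    (hb : ∀ i : Fin s, b i.castSucc ∈ A) :
    ∃ (f : Fin t ≃ A) (j : Fin s ↪ Fin t), ∀ i, (f (j i) : X) = b i.castSucc := by
  let f : Fin t ≃ A := (Finset.equivFinOfCardEq hA).symm
  refine ⟨f, ⟨fun i => f.symm ⟨b i.castSucc, hb i⟩, ?_⟩, ?_⟩
  · intro i k hik
    have h1 := f.symm.injective hik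
    have h2 : b i.castSucc = b k.castSucc := congrArg Subtype.val h1
    exact Fin.castSucc_injective s (b.injective h2)
  · intro i
    show ((f (f.symm ⟨b i.castSucc, hb i⟩)) : X) = _
    rw [f.apply_symm_apply]

/-- the enumeration of `A` followed by a point outside `A` -/
theorem exists_snoc {t : ℕ} {A : Finset X} (f : Fin t ≃ A) {x : X} (hx : x ∉ A) :
    ∃ a : Fin (t + 1) ↪ X, (∀ k : Fin t, a k.castSucc = (f k : X)) ∧ a (Fin.last t) = x := by
  refine ⟨⟨Fin.snoc (α := fun _ => X) (fun k => (f k : X)) x, ?_⟩, ?_, ?_⟩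
  · intro i k
    refine Fin.lastCases ?_ (fun i => ?_) i
    · refine Fin.lastCases ?_ (fun k => ?_) k
      · intro _; rfl
      · intro h
        rw [Fin.snoc_last, Fin.snoc_castSucc] at h
        exact absurd (h ▸ (f k).2) hx
    · refine Fin.lastCases ?_ (fun k => ?_) k
      · intro h
        rw [Fin.snoc_last, Fin.snoc_castSucc] at h
        exact absurd (h ▸ (f i).2) hx
      · intro h
        rw [Fin.snoc_castSucc, Fin.snoc_castSucc] at h
        rw [f.injective (Subtype.ext h)]
  · intro k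
    show Fin.snoc (α := fun _ => X) (fun k => (f k : X)) x k.castSucc = _
    rw [Fin.snoc_castSucc]
  · show Fin.snoc (α := fun _ => X) (fun k => (f k : X)) x (Fin.last t) = _
    rw [Fin.snoc_last]

theorem steiner_last {s t : ℕ} {S : Set (Set.powersetCard X t)} (hS : IsSteiner s S)
    {b : Fin (s + 1) ↪ X} (hb : IsBasis s S b) :
    ∃ A ∈ S, (∀ i : Fin s, b i.castSucc ∈ (A : Finset X)) ∧ b (Fin.last s) ∉ (A : Finset X) := by
  obtain ⟨A, ⟨h1, h2⟩, _⟩ := hS ((univ : Finset (Fin s)).map
    (Fin.castSuccEmb.trans b)) (by rw [card_map, card_univ, Fintype.card_fin])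
  have h3 : ∀ i : Fin s, b i.castSucc ∈ (A : Finset X) := by
    intro i
    apply h2
    rw [mem_map]
    exact ⟨i, mem_univ _, rfl⟩
  refine ⟨A, h1, h3, ?_⟩
  intro h4
  obtain ⟨i, hi⟩ := hb A h1
  apply hi
  refine Fin.lastCases h4 (fun i => h3 i) i

theorem basis_transitive {s t : ℕ} {z : Y} {c : Set.powersetCard X t → Y}
    {H : Subgroup (Equiv.Perm X)}
    (hS : IsSteiner s {A : Set.powersetCard X t | c A = z})
    (hc2 : ∀ a b : Fin (t + 1) ↪ X, ∃ σ ∈ H,
      (∀ A B : Set.powersetCard X t, c (σ • A) = c (σ • B) ↔ c A = c B) ∧ ∀ i, σ (a i) = b i) :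
    IsBasisTransitive s H {A : Set.powersetCard X t | c A = z} := by
  intro b b' hb hb'
  obtain ⟨A, hA, hA1, hA2⟩ := steiner_last hS hb
  obtain ⟨A', hA', hA1', hA2'⟩ := steiner_last hS hb'
  obtain ⟨f, j, hfj⟩ := enum (A := (A : Finset X)) A.2 b hA1
  obtain ⟨f', j', hfj'⟩ := enum (A := (A' : Finset X)) A'.2 b' hA1'
  obtain ⟨ρ, hρ⟩ : ∃ ρ : Equiv.Perm (Fin t), ∀ i, ρ (j i) = j' i := by
    have h4 := Equiv.Perm.isMultiplyPretransitive (Fin t) s
    obtain ⟨σ, hσ⟩ := h4.exists_smul_eq j j'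
    exact ⟨σ, fun i => DFunLike.congr_fun hσ i⟩
  obtain ⟨a, ha1, ha2⟩ := exists_snoc f hA2
  obtain ⟨a', ha1', ha2'⟩ := exists_snoc (ρ.trans f') hA2'
  obtain ⟨σ, hσH, hσ1, hσ2⟩ := hc2 a a'
  have hσf : ∀ k : Fin t, σ (f k : X) = (f' (ρ k) : X) := by
    intro k
    rw [← ha1, hσ2, ha1']
    rfl
  have hσA : σ • A = A' := by
    apply Subtype.ext
    have h1 : ((σ • A : Set.powersetCard X t) : Finset X) = σ • (A : Finset X) :=
      Set.powersetCard.coe_smul
    rw [h1]
    apply eq_of_subset_of_card_le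
    · intro x hx
      obtain ⟨y, rfl⟩ := σ.surjective x
      have hy : y ∈ (A : Finset X) := (smul_mem_smul_finset_iff (b := y) σ).1 hx
      have h2 : y = (f (f.symm ⟨y, hy⟩) : X) := by rw [f.apply_symm_apply]
      rw [h2, hσf]
      exact (f' _).2
    · rw [card_smul_finset]
      have h3 : (A : Finset X).card = t := A.2
      have h4 : (A' : Finset X).card = t := A'.2
      omega
  refine ⟨⟨σ, hσH⟩, ?_, ?_⟩
  · apply smul_eq (c := c) ⟨σ, hσ1⟩ hA
    have h1 : (⟨σ, hσ1⟩ : autG c) • A = σ • A := rfl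
    rw [h1, hσA]
    exact hA'
  · intro i
    show σ (b i) = b' i
    refine Fin.lastCases ?_ (fun i => ?_) i
    · rw [← ha2, hσ2, ha2']
    · rw [← hfj, hσf, hρ, hfj']

omit [DecidableEq X] in
theorem card_closure_le [Infinite X] {n : ℕ} (hn : 1 ≤ n)
    (f : (Fin n ↪ X) × (Fin n ↪ X) → Equiv.Perm X) :
    Cardinal.mk (Subgroup.closure (Set.range f)) ≤ Cardinal.mk X := by
  have h0 : Nonempty ((Fin n ↪ X) × (Fin n ↪ X)) :=
    ⟨(Fin.valEmbedding.trans (Infinite.natEmbedding X),
      Fin.valEmbedding.trans (Infinite.natEmbedding X))⟩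
  have hX := Cardinal.aleph0_le_mk X
  have h1 : Cardinal.mk (Fin n ↪ X) ≤ Cardinal.mk X := by
    refine (Cardinal.mk_embedding_le_arrow _ _).trans ?_
    rw [← Cardinal.power_def, Cardinal.mk_fin]
    exact (Cardinal.power_nat_eq hX hn).le
  have h2 : Cardinal.mk ((Fin n ↪ X) × (Fin n ↪ X)) ≤ Cardinal.mk X := by
    rw [Cardinal.mk_prod, Cardinal.lift_id]
    exact (mul_le_mul' h1 h1).trans (Cardinal.mul_eq_self hX).le
  rw [← FreeGroup.range_lift_eq_closure]
  refine (Cardinal.mk_le_of_surjective (FreeGroup.lift f).rangeRestrict_surjective).trans ?_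
  rw [Cardinal.mk_freeGroup]
  exact max_le h2 hX

omit [DecidableEq X] in
theorem card_ge [Infinite X] {t : ℕ} {G : Subgroup (Equiv.Perm X)}
    (hG : MulAction.IsMultiplyPretransitive G X (t + 1)) : Cardinal.mk X ≤ Cardinal.mk G := by
  classical
  let e : Fin (t + 1) ↪ X := Fin.valEmbedding.trans (Infinite.natEmbedding X)
  have h1 : Function.Surjective (fun g : G => g • (e 0)) := by
    intro x
    obtain ⟨g, hg⟩ := hG.exists_smul_eq e (e.trans (Equiv.swap (e 0) x).toEmbedding)
    refine ⟨g, ?_⟩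
    have h2 : g • e 0 = Equiv.swap (e 0) x (e 0) := DFunLike.congr_fun hg 0
    exact h2.trans (Equiv.swap_apply_left _ _)
  exact Cardinal.mk_le_of_surjective h1

/-- the construction -/
theorem exists_group [Infinite X] {s t : ℕ} (hs : 1 ≤ s) (hst : s < t) :
    ∃ (G : Subgroup (Equiv.Perm X)) (S : Set (Set.powersetCard X t)),
      MulAction.IsMultiplyPretransitive G X (t + 1) ∧
      ¬ MulAction.IsPreprimitive G (Set.powersetCard X t) ∧
      IsImprimitivityBlock G S ∧ IsSteiner s S ∧ IsBasisTransitive s G S ∧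
      Cardinal.mk G = Cardinal.mk X := by
  obtain ⟨Y, c, hc1, hc2'⟩ := exists_colouring_inf hst X
  choose τ hτ1 hτ2 using hc2'
  let H : Subgroup (Equiv.Perm X) := Subgroup.closure
    (Set.range fun p : (Fin (t + 1) ↪ X) × (Fin (t + 1) ↪ X) => τ p.1 p.2)
  have hH : H ≤ autG c := by
    rw [Subgroup.closure_le]
    rintro _ ⟨p, rfl⟩
    exact hτ1 p.1 p.2
  have hc2 : ∀ a b : Fin (t + 1) ↪ X, ∃ σ ∈ H,
      (∀ A B : Set.powersetCard X t, c (σ • A) = c (σ • B) ↔ c A = c B) ∧ ∀ i, σ (a i) = b i :=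
    fun a b => ⟨τ a b, Subgroup.subset_closure ⟨(a, b), rfl⟩, hτ1 a b, hτ2 a b⟩
  obtain ⟨B0, _, hB0⟩ := exists_superset (X := X) t ∅ (by simp)
  let z : Y := c ⟨B0, hB0⟩
  let S : Set (Set.powersetCard X t) := {A | c A = z}
  have hSt : IsSteiner s S := fun W hW => hc1 ⟨B0, hB0⟩ W hW
  -- a first block
  obtain ⟨W0, _, hW0⟩ := exists_superset (X := X) s ∅ (by simp)
  obtain ⟨A0, ⟨hA0, hWA0⟩, hA0u⟩ := hSt W0 hW0
  have hA0c : (A0 : Finset X).card = t := A0.2
  obtain ⟨y, hy⟩ := Infinite.exists_notMem_finset (A0 : Finset X)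
  obtain ⟨W1, hW1, hW1c⟩ := exists_superset (X := X) s {y} (by rw [card_singleton]; exact hs)
  obtain ⟨A1, ⟨hA1, hWA1⟩, _⟩ := hSt W1 hW1c
  have hy1 : y ∈ (A1 : Finset X) := hWA1 (hW1 (by simp))
  have hne : A0 ≠ A1 := by
    intro h
    rw [h] at hy
    exact hy hy1
  have hnt : S.Nontrivial := ⟨A0, hA0, A1, hA1, hne⟩
  have hnu : S ≠ Set.univ := by
    intro h
    obtain ⟨x, hx, hxW⟩ : ∃ x ∈ (A0 : Finset X), x ∉ W0 := by
      by_contra hcon
      push Not at hcon
      have := card_le_card hcon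
      omega
    have hye : y ∉ (A0 : Finset X).erase x := fun h1 => hy (mem_of_mem_erase h1)
    let B : Set.powersetCard X t := ⟨insert y ((A0 : Finset X).erase x), by
      rw [Set.powersetCard.mem_iff, card_insert_of_notMem hye, card_erase_of_mem hx]; omega⟩
    have hB : B ∈ S := by rw [h]; trivial
    have hWB : W0 ⊆ (B : Finset X) := by
      intro z hz
      apply mem_insert_of_mem
      rw [mem_erase]
      exact ⟨fun h1 => hxW (h1 ▸ hz), hWA0 hz⟩
    have h1 := hA0u B ⟨hB, hWB⟩
    apply hy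
    rw [← h1]
    exact mem_insert_self _ _
  have hbl : ∀ g : H, g • S = S ∨ Disjoint (g • S) S := by
    intro g
    by_cases hd : Disjoint (g • S) S
    · exact Or.inr hd
    · left
      rw [Set.not_disjoint_iff] at hd
      obtain ⟨B, hB1, hB2⟩ := hd
      rw [Set.mem_smul_set] at hB1
      obtain ⟨A, hA, rfl⟩ := hB1
      exact smul_eq ⟨g.1, hH g.2⟩ hA hB2
  refine ⟨H, S, ⟨?_⟩, ?_, ⟨hnt, hnu, hbl⟩, hSt, basis_transitive hSt hc2, ?_⟩
  · intro a b
    obtain ⟨σ, h1, _, h2⟩ := hc2 a b
    refine ⟨⟨σ, h1⟩, ?_⟩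
    ext i
    exact h2 i
  · intro hprim
    have h1 : MulAction.IsBlock H S := by
      rw [MulAction.isBlock_iff_smul_eq_or_disjoint]
      exact hbl
    rcases hprim.isTrivialBlock_of_isBlock h1 with h2 | h2
    · exact (Set.not_subsingleton_iff.2 hnt) h2
    · exact hnu h2
  · apply le_antisymm
    · exact card_closure_le (by omega) _
    · exact card_ge (t := t) ⟨fun a b => by
        obtain ⟨σ, h1, _, h2⟩ := hc2 a b
        refine ⟨⟨σ, h1⟩, ?_⟩
        ext i
        exact h2 i⟩

/-- a Steiner system `S(s, t, ·)` with `s ≥ 2` is not a partition -/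
theorem not_partition [Infinite X] {s t : ℕ} (hs : 2 ≤ s) (hst : s < t) {S : Set (Set.powersetCard X t)}
    (hS : IsSteiner s S) :
    ¬ IsPartition S := by
  intro hpart
  obtain ⟨W0, _, hW0⟩ := exists_superset (X := X) s ∅ (by simp)
  obtain ⟨A0, ⟨hA0, hWA0⟩, _⟩ := hS W0 hW0
  have hA0c : (A0 : Finset X).card = t := A0.2
  obtain ⟨x, hx⟩ : (A0 : Finset X).Nonempty := by
    rw [← card_pos]; omega
  obtain ⟨y, hy⟩ := Infinite.exists_notMem_finset (A0 : Finset X)
  have hxy : x ≠ y := fun h => hy (h ▸ hx)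
  obtain ⟨W1, hW1, hW1c⟩ := exists_superset (X := X) s {x, y} (by rw [card_pair hxy]; exact hs)
  obtain ⟨A1, ⟨hA1, hWA1⟩, _⟩ := hS W1 hW1c
  have hx1 : x ∈ (A1 : Finset X) := hWA1 (hW1 (by simp))
  have hy1 : y ∈ (A1 : Finset X) := hWA1 (hW1 (by simp))
  obtain ⟨A, _, hA⟩ := hpart x
  have h1 := (hA A0 ⟨hA0, hx⟩).trans (hA A1 ⟨hA1, hx1⟩).symm
  rw [h1] at hy
  exact hy hy1

/-- the trivial restrictions on the parameters -/
theorem restrict [Infinite X] {s t : ℕ} {G : Subgroup (Equiv.Perm X)} {S : Set (Set.powersetCard X t)}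
    (hB : IsImprimitivityBlock G S) (hS : IsSteiner s S) : 1 ≤ s ∧ s < t := by
  obtain ⟨hnt, hnu, _⟩ := hB
  constructor
  · by_contra hcon
    have h0 : s = 0 := by omega
    subst h0
    obtain ⟨A, _, hA⟩ := hS ∅ card_empty
    obtain ⟨B, hB, C, hC, hne⟩ := hnt
    exact hne ((hA B ⟨hB, empty_subset _⟩).trans (hA C ⟨hC, empty_subset _⟩).symm)
  · by_contra hcon
    apply hnu
    rw [Set.eq_univ_iff_forall]
    intro B
    have hBc : (B : Finset X).card = t := B.2
    obtain ⟨W, hW1, hW2⟩ := exists_superset (X := X) s (B : Finset X) (by omega)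
    obtain ⟨A, ⟨hA, hWA⟩, _⟩ := hS W hW2
    have hAc : (A : Finset X).card = t := A.2
    have h1 : (B : Finset X) = (A : Finset X) :=
      eq_of_subset_of_card_le (hW1.trans hWA) (by omega)
    rw [Subtype.ext h1]
    exact hA


theorem blk {t : ℕ} {G : Subgroup (Equiv.Perm X)} {S : Set (Set.powersetCard X t)}
    (hB : IsImprimitivityBlock G S) (g : G) {A B : Set.powersetCard X t} (hA : A ∈ S)
    (hgA : g • A ∈ S) (hB' : B ∈ S) : g • B ∈ S := by
  rcases hB.2.2 g with h | h
  · rw [← h]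
    exact Set.smul_mem_smul_set hB'
  · exact absurd hgA (Set.disjoint_left.1 h (Set.smul_mem_smul_set hA))

/-- the assertion for `t = 1`: there are no blocks -/
theorem assertion_one : Assertion X 1 := by
  intro G hG _ S hS
  exfalso
  obtain ⟨A, hA, B, hB, hAB⟩ := hS.1
  obtain ⟨C, hC⟩ := (Set.ne_univ_iff_exists_notMem S).1 hS.2.1
  obtain ⟨a, ha⟩ := card_eq_one.1 A.2
  obtain ⟨b, hb⟩ := card_eq_one.1 B.2
  obtain ⟨c, hc⟩ := card_eq_one.1 C.2
  have hab : a ≠ b := fun h => hAB (Subtype.ext (by rw [ha, hb, h]))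
  have hac : a ≠ c := fun h => hC (by
    have : C = A := Subtype.ext (by rw [ha, hc, h])
    rw [this]; exact hA)
  obtain ⟨g, hg⟩ := hG.exists_smul_eq
    (⟨![a, b], by
      intro i j h
      fin_cases i <;> fin_cases j <;> simp_all⟩ : Fin 2 ↪ X)
    (⟨![a, c], by
      intro i j h
      fin_cases i <;> fin_cases j <;> simp_all⟩ : Fin 2 ↪ X)
  have h0 : g • a = a := DFunLike.congr_fun hg 0
  have h1 : g • b = c := DFunLike.congr_fun hg 1
  have e1 : g • A = A := Subtype.ext (by
    have h : ((g • A : Set.powersetCard X 1) : Finset X) = g • (A : Finset X) :=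
      Set.powersetCard.coe_smul
    rw [h, ha, smul_finset_singleton, h0])
  have e2 : g • B = C := Subtype.ext (by
    have h : ((g • B : Set.powersetCard X 1) : Finset X) = g • (B : Finset X) :=
      Set.powersetCard.coe_smul
    rw [h, hb, hc, smul_finset_singleton, h1])
  have h3 := blk hS g hA (by rw [e1]; exact hA) hB
  rw [e2] at h3
  exact hC h3

/-- a pair as an element of `powersetCard` -/
def pr (x y : X) (h : x ≠ y) : Set.powersetCard X 2 := ⟨{x, y}, card_pair h⟩

theorem smul_pr {G : Subgroup (Equiv.Perm X)} (g : G) (x y : X) (h : x ≠ y) :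
    g • pr x y h = pr (g • x) (g • y) (fun h' => h (MulAction.injective g h')) := by
  apply Subtype.ext
  have h : ((g • pr x y h : Set.powersetCard X 2) : Finset X) = g • ({x, y} : Finset X) :=
    Set.powersetCard.coe_smul
  rw [h, smul_finset_insert, smul_finset_singleton]
  rfl

theorem exists_pr {A : Set.powersetCard X 2} {x : X} (hx : x ∈ (A : Finset X)) :
    ∃ (y : X) (h : x ≠ y), A = pr x y h := by
  obtain ⟨a, b, hab, h⟩ := card_eq_two.1 A.2
  rw [h, mem_insert, mem_singleton] at hx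
  rcases hx with rfl | rfl
  · exact ⟨b, hab, Subtype.ext h⟩
  · refine ⟨a, hab.symm, Subtype.ext ?_⟩
    rw [h]
    exact pair_comm _ _

theorem trans3 {G : Subgroup (Equiv.Perm X)} (hG : MulAction.IsMultiplyPretransitive G X 3)
    {x y z x' y' z' : X} (h1 : x ≠ y) (h2 : x ≠ z) (h3 : y ≠ z) (h1' : x' ≠ y') (h2' : x' ≠ z')
    (h3' : y' ≠ z') : ∃ g : G, g • x = x' ∧ g • y = y' ∧ g • z = z' := by
  obtain ⟨g, hg⟩ := hG.exists_smul_eq
    (⟨![x, y, z], by
      intro i j h
      fin_cases i <;> fin_cases j <;> simp_all⟩ : Fin 3 ↪ X)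
    (⟨![x', y', z'], by
      intro i j h
      fin_cases i <;> fin_cases j <;> simp_all⟩ : Fin 3 ↪ X)
  exact ⟨g, DFunLike.congr_fun hg 0, DFunLike.congr_fun hg 1, DFunLike.congr_fun hg 2⟩

theorem pr_congr {x y x' y' : X} (h : x ≠ y) (h' : x' ≠ y') (hx : x = x') (hy : y = y') :
    pr x y h = pr x' y' h' := by
  subst hx; subst hy; rfl

theorem pr_comm {x y : X} (h : x ≠ y) : pr x y h = pr y x h.symm :=
  Subtype.ext (pair_comm _ _)

/-- the assertion for `t = 2` -/
theorem assertion_two : Assertion X 2 := by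
  intro G hG _ S hS
  have hdis : ∀ A ∈ S, ∀ B ∈ S, ∀ x, x ∈ (A : Finset X) → x ∈ (B : Finset X) → A = B := by
    intro A hA B hB x hxA hxB
    by_contra hAB
    obtain ⟨b, hb, rfl⟩ := exists_pr hxA
    obtain ⟨c, hc, rfl⟩ := exists_pr hxB
    have hbc : b ≠ c := fun h => hAB (pr_congr _ _ rfl h)
    have star : ∀ (d : X) (hd : x ≠ d), pr x d hd ∈ S := by
      intro d hd
      by_cases hdb : b = d
      · subst hdb; exact hA
      obtain ⟨g, g1, g2, g3⟩ := trans3 hG hb hc hbc hb hd hdb
      have h1 := blk hS g hA (by rw [smul_pr, pr_congr _ hb g1 g2]; exact hA) hB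
      rw [smul_pr, pr_congr _ hd g1 g3] at h1
      exact h1
    apply hS.2.1
    rw [Set.eq_univ_iff_forall]
    intro D
    by_cases hxD : x ∈ (D : Finset X)
    · obtain ⟨d, hd, rfl⟩ := exists_pr hxD
      exact star d hd
    · obtain ⟨e, he⟩ : (D : Finset X).Nonempty := by
        rw [← card_pos]
        have : (D : Finset X).card = 2 := D.2
        omega
      obtain ⟨d, hd, rfl⟩ := exists_pr he
      have hxe : x ≠ e := fun h => hxD (h ▸ he)
      have hxd : x ≠ d := fun h => hxD (by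
        show x ∈ ({e, d} : Finset X)
        rw [h]; simp)
      obtain ⟨g, g1, g2, g3⟩ := trans3 hG hxe hxd hd hxe.symm hd hxd
      have h1 := blk hS g (star e hxe)
        (by rw [smul_pr, pr_congr _ hxe.symm g1 g2, pr_comm]; exact star e hxe) (star d hxd)
      rw [smul_pr, pr_congr _ hd g1 g3] at h1
      exact h1
  intro x
  obtain ⟨A, hA, B, hB, hAB⟩ := hS.1
  have hex : ∃ C ∈ S, x ∈ (C : Finset X) := by
    by_cases hxA : x ∈ (A : Finset X)
    · exact ⟨A, hA, hxA⟩
    obtain ⟨a, ha⟩ : (A : Finset X).Nonempty := by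
      rw [← card_pos]
      have : (A : Finset X).card = 2 := A.2
      omega
    obtain ⟨c, hc⟩ : (B : Finset X).Nonempty := by
      rw [← card_pos]
      have : (B : Finset X).card = 2 := B.2
      omega
    have hcA : c ∉ (A : Finset X) := fun h => hAB (hdis A hA B hB c h hc)
    obtain ⟨b, hb, rfl⟩ := exists_pr ha
    have mb : b ∈ (pr a b hb : Finset X) := by
      show b ∈ ({a, b} : Finset X)
      simp
    have h1 : a ≠ c := fun h => hcA (h ▸ ha)
    have h2 : b ≠ c := fun h => hcA (h ▸ mb)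
    have h3 : a ≠ x := fun h => hxA (h ▸ ha)
    have h4 : b ≠ x := fun h => hxA (h ▸ mb)
    obtain ⟨g, g1, g2, g3⟩ := trans3 hG hb h1 h2 hb h3 h4
    refine ⟨g • B, blk hS g hA (by rw [smul_pr, pr_congr _ hb g1 g2]; exact hA) hB, ?_⟩
    have h : ((g • B : Set.powersetCard X 2) : Finset X) = g • (B : Finset X) :=
      Set.powersetCard.coe_smul
    rw [h, ← g3]
    exact smul_mem_smul_finset hc
  obtain ⟨C, hC, hxC⟩ := hex
  exact ⟨C, ⟨hC, hxC⟩, fun D hD => hdis D hD.1 C hC x hD.2 hxC⟩

/-- **Q1 for all infinite sets.**  (1) Let `X` be an infinite set, of any cardinality, and `t ≥ 1`.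
The assertion of Q1 holds for `X` and `t` if and only if `t ≤ 2`.  (2) For every infinite set `X` and
`1 ≤ s < t` there are a `(t+1)`-transitive group `G` of permutations of `X` that is not `t`-set
primitive, of the cardinality of `X`, and a block of imprimitivity of `G` on the `t`-subsets of `X`
which is a basis-transitive Steiner system `S(s, t, ·)` on `X`.  (3) Every `(t+1)`-transitive group of
permutations of `X` has at least the cardinality of `X`.  (4) Other pairs `s`, `t` do not occur, for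
any group of permutations of `X`.  (5) If `2 ≤ s < t`, no Steiner system `S(s, t, ·)` on `X` is a
partition of `X`. -/
theorem result :
    (∀ (X : Type) [Infinite X] [DecidableEq X] (t : ℕ), 1 ≤ t → (Assertion X t ↔ t ≤ 2)) ∧
    (∀ (X : Type) [Infinite X] [DecidableEq X] (s t : ℕ), 1 ≤ s → s < t →
      ∃ (G : Subgroup (Equiv.Perm X)) (S : Set (Set.powersetCard X t)),
        MulAction.IsMultiplyPretransitive G X (t + 1) ∧
        ¬ MulAction.IsPreprimitive G (Set.powersetCard X t) ∧
        IsImprimitivityBlock G S ∧ IsSteiner s S ∧ IsBasisTransitive s G S ∧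
        Cardinal.mk G = Cardinal.mk X) ∧
    (∀ (X : Type) [Infinite X] (t : ℕ) (G : Subgroup (Equiv.Perm X)),
      MulAction.IsMultiplyPretransitive G X (t + 1) → Cardinal.mk X ≤ Cardinal.mk G) ∧
    (∀ (X : Type) [Infinite X] [DecidableEq X] (s t : ℕ) (G : Subgroup (Equiv.Perm X))
      (S : Set (Set.powersetCard X t)), IsImprimitivityBlock G S → IsSteiner s S →
        1 ≤ s ∧ s < t) ∧
    (∀ (X : Type) [Infinite X] (s t : ℕ) (S : Set (Set.powersetCard X t)), 2 ≤ s → s < t →
      IsSteiner s S → ¬ IsPartition S) := by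
  refine ⟨?_, ?_, ?_, ?_, ?_⟩
  · intro X _ _ t ht
    constructor
    · intro h
      by_contra hcon
      obtain ⟨G, S, k1, k2, k3, k4, _⟩ := exists_group (X := X) (s := 2) (t := t) (by omega) (by omega)
      exact not_partition le_rfl (by omega) k4 (h G k1 k2 S k3)
    · intro h
      interval_cases t
      · exact assertion_one
      · exact assertion_two
  · intro X _ _ s t h1 h2
    exact exists_group h1 h2
  · intro X _ t G hG
    exact card_ge hG
  · intro X _ _ s t G S h1 h2
    exact restrict h1 h2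
  · intro X _ s t S h1 h2 h3
    classical
    exact not_partition h1 h2 h3

end Pool.Agent.Results.MP_c0ccbe_al.AllCardinals
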